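import Mathlib

set_option autoImplicit false
set_option linter.unusedSectionVars false

namespace Pool.Agent.H90.FC

open Finset

section words

variable {K V I E : Type*} [Field K] [DecidableEq K] [Fintype V] [DecidableEq V] [Fintype I] [DecidableEq I]
  [AddCommGroup E] [Module K E]

/-- Number of blocks of `G` through `v`. -/
def cnt (blk : I → Finset V) (G : Finset I) (v : V) : ℕ := (G.filter (fun P => v ∈ blk P)).card

/-- The word `∑ g_P e_P 1_P`. -/
def word (blk : I → Finset V) (e : I → E) : (I → V → K) →ₗ[K] (V → E) where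
  toFun g v := ∑ P, if v ∈ blk P then g P v • e P else 0
  map_add' g h := by
    funext v
    simp only [Pi.add_apply, ← Finset.sum_add_distrib]
    apply Finset.sum_congr rfl
    intro P _
    split_ifs
    · rw [add_smul]
    · rw [add_zero]
  map_smul' c g := by
    funext v
    simp only [Pi.smul_apply, RingHom.id_apply, Finset.smul_sum]
    apply Finset.sum_congr rfl
    intro P _
    split_ifs
    · rw [smul_eq_mul, mul_smul]
    · rw [smul_zero]

/-- Families of local functions supported on the blocks of `B`. -/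
def fam (Gs : Submodule K (V → K)) (B : Finset I) : Submodule K (I → V → K) where
  carrier := {g | (∀ P, g P ∈ Gs) ∧ ∀ P, P ∉ B → g P = 0}
  add_mem' := by
    rintro a b ⟨ha, ha'⟩ ⟨hb, hb'⟩
    refine ⟨fun P => Gs.add_mem (ha P) (hb P), fun P hP => ?_⟩
    simp only [Pi.add_apply, ha' P hP, hb' P hP, add_zero]
  zero_mem' := ⟨fun _ => Gs.zero_mem, fun _ _ => rfl⟩
  smul_mem' := by
    rintro c a ⟨ha, ha'⟩
    refine ⟨fun P => Gs.smul_mem c (ha P), fun P hP => ?_⟩
    simp only [Pi.smul_apply, ha' P hP, smul_zero]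

lemma mem_fam {Gs : Submodule K (V → K)} {B : Finset I} {g : I → V → K} :
    g ∈ fam Gs B ↔ (∀ P, g P ∈ Gs) ∧ ∀ P, P ∉ B → g P = 0 := Iff.rfl

variable (K E) in
/-- Functions supported on `X`. -/
def supp (X : Finset V) : Submodule K (V → E) where
  carrier := {w | ∀ v, v ∉ X → w v = 0}
  add_mem' := by
    intro a b ha hb v hv
    simp only [Pi.add_apply, ha v hv, hb v hv, add_zero]
  zero_mem' := fun _ _ => rfl
  smul_mem' := by
    intro c a ha v hv
    simp only [Pi.smul_apply, ha v hv, smul_zero]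

lemma mem_supp {X : Finset V} {w : V → E} : w ∈ supp K E X ↔ ∀ v, v ∉ X → w v = 0 := Iff.rfl

/-- Blocks nearly contained in `X`. -/
def near (blk : I → Finset V) (thr : ℕ) (X : Finset V) : Finset I :=
  univ.filter (fun P => (blk P \ X).card ≤ thr)

lemma mem_near {blk : I → Finset V} {thr : ℕ} {X : Finset V} {P : I} :
    P ∈ near blk thr X ↔ (blk P \ X).card ≤ thr := by simp [near]

/-- The space `L(X)`. -/
def LL (blk : I → Finset V) (e : I → E) (Gs : Submodule K (V → K)) (thr : ℕ) (X : Finset V) :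
    Submodule K (V → E) :=
  (fam Gs (near blk thr X)).map (word blk e) ⊓ supp K E X

/-- The hypotheses on the blocks. -/
structure Hyp (blk : I → Finset V) (e : I → E) (Gs : Submodule K (V → K)) (thr s M Z1 Z2 b1 : ℕ) :
    Prop where
  ind : ∀ (v : V) (S : Finset I), (∀ P ∈ S, v ∈ blk P) → S.card ≤ s →
    LinearIndependent K (fun P : S => e P)
  sz1 : ∀ g ∈ Gs, g ≠ 0 → ∀ P, ((blk P).filter (fun v => g v = 0)).card ≤ Z1
  sz2 : ∀ g ∈ Gs, ∀ P P', P ≠ P' → (∃ v ∈ blk P ∩ blk P', g v ≠ 0) →
    ((blk P ∩ blk P').filter (fun v => g v = 0)).card ≤ Z2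
  bad1 : ∀ G : Finset I, G.card ≤ M → ∀ P ∈ G,
    ((blk P).filter (fun v => s < cnt blk G v)).card ≤ b1
  bad2 : ∀ G : Finset I, G.card ≤ M → ∀ P ∈ G, ∀ P' ∈ G, P ≠ P' → (blk P ∩ blk P').Nonempty →
    ((blk P ∩ blk P').filter (fun v => s < cnt blk G v)).card + 2 * Z2 < (blk P ∩ blk P').card
  num1 : ∀ P, b1 + 3 * Z1 < (blk P).card
  num2 : b1 + Z1 ≤ thr

variable {blk : I → Finset V} {e : I → E} {Gs : Submodule K (V → K)} {thr s M Z1 Z2 b1 : ℕ}

lemma word_apply (g : I → V → K) (v : V) :
    word blk e g v = ∑ P, if v ∈ blk P then g P v • e P else 0 := rfl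

/-- At a good point a vanishing word has vanishing local functions. -/
lemma good_zero (H : Hyp blk e Gs thr s M Z1 Z2 b1) {G : Finset I} {g : I → V → K}
    (hg : ∀ P, P ∉ G → g P = 0) {v : V} (hv : cnt blk G v ≤ s) (h0 : word blk e g v = 0)
    {P : I} (hP : v ∈ blk P) : g P v = 0 := by
  by_cases hPG : P ∈ G
  · set S := G.filter (fun P => v ∈ blk P) with hS
    have hind := H.ind v S (fun P hP => (Finset.mem_filter.mp hP).2) hv
    have hsum : ∑ Q ∈ S, g Q v • e Q = 0 := by
      rw [← h0, word_apply, hS, Finset.sum_filter]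
      rw [← Finset.sum_subset (Finset.subset_univ G)]
      intro Q _ hQ
      rw [hg Q hQ]
      simp
    rw [← Finset.sum_coe_sort S (fun Q => g Q v • e Q)] at hsum
    have := (Fintype.linearIndependent_iff.mp hind) (fun Q => g Q v) hsum
    exact this ⟨P, Finset.mem_filter.mpr ⟨hPG, hP⟩⟩
  · rw [hg P hPG]; rfl

/-- if the local function of `P` vanishes at the good points outside `X`, the block is near `X` -/
lemma near_of_zero (H : Hyp blk e Gs thr s M Z1 Z2 b1) {G : Finset I} (hG : G.card ≤ M)
    {x : V → K} (hx : x ∈ Gs) (hx0 : x ≠ 0) {P : I} (hP : P ∈ G) {X : Finset V}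
    (h : ∀ v ∈ blk P, v ∉ X → cnt blk G v ≤ s → x v = 0) : P ∈ near blk thr X := by
  rw [mem_near]
  have h1 : blk P \ X ⊆ (blk P).filter (fun v => s < cnt blk G v) ∪
      (blk P).filter (fun v => x v = 0) := by
    intro v hv
    rw [Finset.mem_sdiff] at hv
    rw [Finset.mem_union, Finset.mem_filter, Finset.mem_filter]
    by_cases hs : s < cnt blk G v
    · exact Or.inl ⟨hv.1, hs⟩
    · exact Or.inr ⟨hv.1, h v hv.1 hv.2 (not_lt.mp hs)⟩
  have h2 := Finset.card_le_card h1
  have h3 := Finset.card_union_le ((blk P).filter (fun v => s < cnt blk G v))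
    ((blk P).filter (fun v => x v = 0))
  have h4 := H.bad1 G hG P hP
  have h5 := H.sz1 x hx hx0 P
  have h6 := H.num2
  omega

/-- (P0) -/
theorem P0 (H : Hyp blk e Gs thr s M Z1 Z2 b1) {G : Finset I} (hG : G.card ≤ M)
    {g : I → V → K} (hg : g ∈ fam Gs G) (h0 : word blk e g = 0) : g = 0 := by
  funext P
  by_contra hne
  have hPG : P ∈ G := by
    by_contra h
    exact hne (hg.2 P h)
  have h1 : blk P ⊆ (blk P).filter (fun v => s < cnt blk G v) ∪
      (blk P).filter (fun v => g P v = 0) := by
    intro v hv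
    rw [Finset.mem_union, Finset.mem_filter, Finset.mem_filter]
    by_cases hs : s < cnt blk G v
    · exact Or.inl ⟨hv, hs⟩
    · exact Or.inr ⟨hv, good_zero H hg.2 (not_lt.mp hs) (by rw [h0]; rfl) hv⟩
  have h2 := Finset.card_le_card h1
  have h3 := Finset.card_union_le ((blk P).filter (fun v => s < cnt blk G v))
    ((blk P).filter (fun v => g P v = 0))
  have h4 := H.bad1 G hG P hPG
  have h5 := H.sz1 (g P) (hg.1 P) hne P
  have h6 := H.num1 P
  omega

/-- (P1) -/
theorem near_mono {X Y : Finset V} (h : X ⊆ Y) : near blk thr X ⊆ near blk thr Y := by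
  intro P hP
  rw [mem_near] at hP ⊢
  exact (Finset.card_le_card (Finset.sdiff_subset_sdiff (Finset.Subset.refl _) h)).trans hP

theorem fam_mono {A B : Finset I} (h : A ⊆ B) : fam Gs A ≤ fam Gs B :=
  fun _ hg => ⟨hg.1, fun P hP => hg.2 P (fun h' => hP (h h'))⟩

theorem LL_mono {X Y : Finset V} (h : X ⊆ Y) : LL blk e Gs thr X ≤ LL blk e Gs thr Y := by
  unfold LL
  apply inf_le_inf
  · exact Submodule.map_mono (fam_mono (near_mono h))
  · exact fun w hw v hv => hw v (fun h' => hv (h h'))

/-- (P2) -/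
theorem P2 (H : Hyp blk e Gs thr s M Z1 Z2 b1) {X Y : Finset V} (hY : (near blk thr Y).card ≤ M)
    {w : V → E} (hw : w ∈ LL blk e Gs thr Y) (hX : w ∈ supp K E X) : w ∈ LL blk e Gs thr X := by
  obtain ⟨⟨g, hg, rfl⟩, _⟩ := hw
  refine ⟨⟨g, ⟨hg.1, fun P hP => ?_⟩, rfl⟩, hX⟩
  by_contra hne
  have hPG : P ∈ near blk thr Y := by
    by_contra h
    exact hne (hg.2 P h)
  exact hP (near_of_zero H hY (hg.1 P) hne hPG
    (fun v hv hvX hs => good_zero H hg.2 hs (hX v hvX) hv))

/-- restriction to `A` -/
def restr (A : Finset V) (w : V → E) : V → E := fun v => if v ∈ A then w v else 0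

lemma exists_of_word_ne {g : I → V → K} {v : V} (h : word blk e g v ≠ 0) :
    ∃ P, v ∈ blk P ∧ g P v ≠ 0 := by
  by_contra hcon
  apply h
  rw [word_apply]
  apply Finset.sum_eq_zero
  intro P _
  split_ifs with hP
  · have : g P v = 0 := by
      by_contra h'
      exact hcon ⟨P, hP, h'⟩
    rw [this, zero_smul]
  · rfl

/-- (b) two local functions cannot both be nonzero at a common point if their product vanishes at
the good points of the intersection -/
lemma cross (H : Hyp blk e Gs thr s M Z1 Z2 b1) {G : Finset I} (hG : G.card ≤ M) {P P' : I}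
    (hP : P ∈ G) (hP' : P' ∈ G) (hne : P ≠ P') {x x' : V → K} (hx : x ∈ Gs) (hx' : x' ∈ Gs)
    {v0 : V} (hv : v0 ∈ blk P) (hv' : v0 ∈ blk P') (h1 : x v0 ≠ 0) (h2 : x' v0 ≠ 0)
    (h : ∀ v, v ∈ blk P → v ∈ blk P' → cnt blk G v ≤ s → x v = 0 ∨ x' v = 0) : False := by
  have hmem : v0 ∈ blk P ∩ blk P' := Finset.mem_inter.mpr ⟨hv, hv'⟩
  have e1 := H.sz2 x hx P P' hne ⟨v0, hmem, h1⟩
  have e2 := H.sz2 x' hx' P P' hne ⟨v0, hmem, h2⟩
  have e3 := H.bad2 G hG P hP P' hP' hne ⟨v0, hmem⟩
  have hsub : blk P ∩ blk P' ⊆ ((blk P ∩ blk P').filter (fun v => s < cnt blk G v) ∪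
      (blk P ∩ blk P').filter (fun v => x v = 0)) ∪
      (blk P ∩ blk P').filter (fun v => x' v = 0) := by
    intro v hv
    have hv2 := Finset.mem_inter.mp hv
    rw [Finset.mem_union, Finset.mem_union, Finset.mem_filter, Finset.mem_filter,
      Finset.mem_filter]
    by_cases hs : s < cnt blk G v
    · exact Or.inl (Or.inl ⟨hv, hs⟩)
    · rcases h v hv2.1 hv2.2 (not_lt.mp hs) with h' | h'
      · exact Or.inl (Or.inr ⟨hv, h'⟩)
      · exact Or.inr ⟨hv, h'⟩
  have e4 := Finset.card_le_card hsub
  have e5 := Finset.card_union_le (((blk P ∩ blk P').filter (fun v => s < cnt blk G v) ∪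
      (blk P ∩ blk P').filter (fun v => x v = 0)))
      ((blk P ∩ blk P').filter (fun v => x' v = 0))
  have e6 := Finset.card_union_le ((blk P ∩ blk P').filter (fun v => s < cnt blk G v))
      ((blk P ∩ blk P').filter (fun v => x v = 0))
  omega

/-- (c) -/
lemma alt (H : Hyp blk e Gs thr s M Z1 Z2 b1) {G : Finset I} (hG : G.card ≤ M)
    {x x' : I → V → K} (hx : x ∈ fam Gs G) (hx' : x' ∈ fam Gs G) (hd : ∀ P, x P = 0 ∨ x' P = 0)
    (hgood : ∀ v, cnt blk G v ≤ s → ∀ P P', v ∈ blk P → v ∈ blk P' → x P v = 0 ∨ x' P' v = 0)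
    (v : V) : word blk e x v = 0 ∨ word blk e x' v = 0 := by
  by_contra hcon
  rw [not_or] at hcon
  obtain ⟨P, hP, h1⟩ := exists_of_word_ne hcon.1
  obtain ⟨P', hP', h2⟩ := exists_of_word_ne hcon.2
  have hPG : P ∈ G := by
    by_contra h
    exact h1 (by rw [hx.2 P h]; rfl)
  have hPG' : P' ∈ G := by
    by_contra h
    exact h2 (by rw [hx'.2 P' h]; rfl)
  have hne : P ≠ P' := by
    rintro rfl
    rcases hd P with h | h
    · exact h1 (by rw [h]; rfl)
    · exact h2 (by rw [h]; rfl)
  exact cross H hG hPG hPG' hne (hx.1 P) (hx'.1 P') hP hP' h1 h2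
    (fun u hu hu' hs => hgood u hs P P' hu hu')

/-- (P3) -/
theorem P3 (H : Hyp blk e Gs thr s M Z1 Z2 b1) {A B C : Finset V} (hBC : Disjoint B C)
    (hAB : Disjoint A B) (hAC : Disjoint A C)
    (hM : (near blk thr (A ∪ B) ∪ near blk thr (A ∪ C)).card ≤ M)
    {w1 w2 : V → E} (h1 : w1 ∈ LL blk e Gs thr (A ∪ B)) (h2 : w2 ∈ LL blk e Gs thr (A ∪ C))
    (h3 : w1 + w2 ∈ supp K E (B ∪ C)) : restr A w1 ∈ LL blk e Gs thr A := by
  classical
  obtain ⟨⟨g1, hg1, hw1⟩, hs1⟩ := h1
  obtain ⟨⟨g2, hg2, hw2⟩, hs2⟩ := h2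
  set G := near blk thr (A ∪ B) ∪ near blk thr (A ∪ C) with hGdef
  have hf1 : g1 ∈ fam Gs G := fam_mono Finset.subset_union_left hg1
  have hf2 : g2 ∈ fam Gs G := fam_mono Finset.subset_union_right hg2
  set g3 : I → V → K := -g1 - g2 with hg3
  have hf3 : g3 ∈ fam Gs G := (fam Gs G).sub_mem ((fam Gs G).neg_mem hf1) hf2
  have hw3 : word blk e g3 = -w1 - w2 := by rw [hg3, map_sub, map_neg, hw1, hw2]
  have hz : ∀ v, w1 v = 0 ∨ w2 v = 0 ∨ word blk e g3 v = 0 := by
    intro v
    by_cases hA : v ∈ A
    · right; right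
      have : (w1 + w2) v = 0 := by
        apply h3
        rw [Finset.mem_union, not_or]
        exact ⟨Finset.disjoint_left.mp hAB hA, Finset.disjoint_left.mp hAC hA⟩
      rw [hw3]
      simp only [Pi.add_apply] at this
      simp only [Pi.sub_apply, Pi.neg_apply]
      rw [← neg_add', this, neg_zero]
    · by_cases hB : v ∈ B
      · right; left
        apply hs2
        rw [Finset.mem_union, not_or]
        exact ⟨hA, Finset.disjoint_left.mp hBC hB⟩
      · left
        apply hs1
        rw [Finset.mem_union, not_or]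
        exact ⟨hA, hB⟩
  have hsum : ∀ P v, g1 P v + g2 P v + g3 P v = 0 := by
    intro P v
    simp only [hg3, Pi.sub_apply, Pi.neg_apply]
    ring
  -- nonvanishing at good points
  have hn1 : ∀ v, cnt blk G v ≤ s → ∀ P, v ∈ blk P → g1 P v ≠ 0 → w1 v ≠ 0 := by
    intro v hs P hP hne h0
    exact hne (good_zero H hf1.2 hs (by rw [hw1]; exact h0) hP)
  have hn2 : ∀ v, cnt blk G v ≤ s → ∀ P, v ∈ blk P → g2 P v ≠ 0 → w2 v ≠ 0 := by
    intro v hs P hP hne h0
    exact hne (good_zero H hf2.2 hs (by rw [hw2]; exact h0) hP)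
  have hn3 : ∀ v, cnt blk G v ≤ s → ∀ P, v ∈ blk P → g3 P v ≠ 0 → word blk e g3 v ≠ 0 := by
    intro v hs P hP hne h0
    exact hne (good_zero H hf3.2 hs h0 hP)
  -- (a)
  have ha : ∀ P, g1 P = 0 ∨ g2 P = 0 ∨ g3 P = 0 := by
    intro P
    by_contra hcon
    rw [not_or, not_or] at hcon
    obtain ⟨c1, c2, c3⟩ := hcon
    have hPG : P ∈ G := by
      by_contra h
      exact c1 (hf1.2 P h)
    have hsub : blk P ⊆ (((blk P).filter (fun v => s < cnt blk G v) ∪
        (blk P).filter (fun v => g1 P v = 0)) ∪ (blk P).filter (fun v => g2 P v = 0)) ∪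
        (blk P).filter (fun v => g3 P v = 0) := by
      intro v hv
      rw [Finset.mem_union, Finset.mem_union, Finset.mem_union, Finset.mem_filter,
        Finset.mem_filter, Finset.mem_filter, Finset.mem_filter]
      by_cases hs : s < cnt blk G v
      · exact Or.inl (Or.inl (Or.inl ⟨hv, hs⟩))
      · have hs' := not_lt.mp hs
        by_cases d1 : g1 P v = 0
        · exact Or.inl (Or.inl (Or.inr ⟨hv, d1⟩))
        · by_cases d2 : g2 P v = 0
          · exact Or.inl (Or.inr ⟨hv, d2⟩)
          · by_cases d3 : g3 P v = 0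
            · exact Or.inr ⟨hv, d3⟩
            · exfalso
              rcases hz v with h | h | h
              · exact hn1 v hs' P hv d1 h
              · exact hn2 v hs' P hv d2 h
              · exact hn3 v hs' P hv d3 h
    have k1 := Finset.card_le_card hsub
    have k2 := Finset.card_union_le (((blk P).filter (fun v => s < cnt blk G v) ∪
        (blk P).filter (fun v => g1 P v = 0)) ∪ (blk P).filter (fun v => g2 P v = 0))
        ((blk P).filter (fun v => g3 P v = 0))
    have k3 := Finset.card_union_le ((blk P).filter (fun v => s < cnt blk G v) ∪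
        (blk P).filter (fun v => g1 P v = 0)) ((blk P).filter (fun v => g2 P v = 0))
    have k4 := Finset.card_union_le ((blk P).filter (fun v => s < cnt blk G v))
        ((blk P).filter (fun v => g1 P v = 0))
    have k5 := H.bad1 G hM P hPG
    have k6 := H.sz1 (g1 P) (hf1.1 P) c1 P
    have k7 := H.sz1 (g2 P) (hf2.1 P) c2 P
    have k8 := H.sz1 (g3 P) (hf3.1 P) c3 P
    have k9 := H.num1 P
    omega
  -- the three types
  set xA : I → V → K := fun P => if g3 P = 0 then g1 P else 0 with hxA
  set xB : I → V → K := fun P => if g2 P = 0 then g3 P else 0 with hxB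
  set xC : I → V → K := fun P => if g1 P = 0 then g2 P else 0 with hxC
  have z12 : ∀ P, g1 P = 0 → g2 P = 0 → g3 P = 0 := by
    intro P h h'
    funext v
    have := hsum P v
    rw [h, h'] at this
    simpa using this
  have z13 : ∀ P, g1 P = 0 → g3 P = 0 → g2 P = 0 := by
    intro P h h'
    funext v
    have := hsum P v
    rw [h, h'] at this
    simpa using this
  have z23 : ∀ P, g2 P = 0 → g3 P = 0 → g1 P = 0 := by
    intro P h h'
    funext v
    have := hsum P v
    rw [h, h'] at this
    simpa using this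
  have fA : xA ∈ fam Gs G := by
    refine ⟨fun P => ?_, fun P hP => ?_⟩
    · simp only [hxA]; split_ifs
      · exact hf1.1 P
      · exact Gs.zero_mem
    · simp only [hxA, hf1.2 P hP, ite_self]
  have fB : xB ∈ fam Gs G := by
    refine ⟨fun P => ?_, fun P hP => ?_⟩
    · simp only [hxB]; split_ifs
      · exact hf3.1 P
      · exact Gs.zero_mem
    · simp only [hxB, hf3.2 P hP, ite_self]
  have fC : xC ∈ fam Gs G := by
    refine ⟨fun P => ?_, fun P hP => ?_⟩
    · simp only [hxC]; split_ifs
      · exact hf2.1 P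
      · exact Gs.zero_mem
    · simp only [hxC, hf2.2 P hP, ite_self]
  have q1 : g1 = xA - xB := by
    funext P v
    have hs := hsum P v
    simp only [hxA, hxB, Pi.sub_apply]
    by_cases d3 : g3 P = 0
    · rw [if_pos d3]
      by_cases d2 : g2 P = 0
      · rw [if_pos d2, d3]; simp
      · rw [if_neg d2]; simp
    · rw [if_neg d3]
      by_cases d2 : g2 P = 0
      · rw [if_pos d2]
        rw [d2] at hs
        simp only [Pi.zero_apply, add_zero, zero_sub] at hs ⊢
        linear_combination hs
      · rw [if_neg d2]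
        have d1 : g1 P = 0 := by
          rcases ha P with h | h | h
          · exact h
          · exact absurd h d2
          · exact absurd h d3
        rw [d1]; simp
  have q2 : g2 = xC - xA := by
    funext P v
    have hs := hsum P v
    simp only [hxA, hxC, Pi.sub_apply]
    by_cases d1 : g1 P = 0
    · rw [if_pos d1]
      by_cases d3 : g3 P = 0
      · rw [if_pos d3, d1]; simp
      · rw [if_neg d3]; simp
    · rw [if_neg d1]
      by_cases d3 : g3 P = 0
      · rw [if_pos d3]
        rw [d3] at hs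
        simp only [Pi.zero_apply, add_zero, zero_sub] at hs ⊢
        linear_combination hs
      · rw [if_neg d3]
        have d2 : g2 P = 0 := by
          rcases ha P with h | h | h
          · exact absurd h d1
          · exact h
          · exact absurd h d3
        rw [d2]; simp
  have q3 : g3 = xB - xC := by
    funext P v
    have hs := hsum P v
    have e1 := congrFun (congrFun q1 P) v
    have e2 := congrFun (congrFun q2 P) v
    simp only [Pi.sub_apply] at e1 e2 ⊢
    linear_combination hs - e1 - e2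
  have w1e : w1 = word blk e xA - word blk e xB := by rw [← hw1, q1, map_sub]
  have w2e : w2 = word blk e xC - word blk e xA := by rw [← hw2, q2, map_sub]
  have w3e : word blk e g3 = word blk e xB - word blk e xC := by rw [q3, map_sub]
  -- values
  have vA : ∀ P v, xA P v ≠ 0 → g1 P v ≠ 0 ∧ g2 P v ≠ 0 := by
    intro P v h
    by_cases d3 : g3 P = 0
    · have h' : g1 P v ≠ 0 := by
        intro h0; apply h; simp only [hxA, if_pos d3, h0]
      refine ⟨h', fun h0 => h' ?_⟩
      have hs := hsum P v
      rw [h0, d3] at hs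
      simpa using hs
    · exact absurd (by simp only [hxA, if_neg d3]; rfl) h
  have vB : ∀ P v, xB P v ≠ 0 → g1 P v ≠ 0 ∧ g3 P v ≠ 0 := by
    intro P v h
    by_cases d2 : g2 P = 0
    · have h' : g3 P v ≠ 0 := by
        intro h0; apply h; simp only [hxB, if_pos d2, h0]
      refine ⟨fun h0 => h' ?_, h'⟩
      have hs := hsum P v
      rw [h0, d2] at hs
      simpa using hs
    · exact absurd (by simp only [hxB, if_neg d2]; rfl) h
  have vC : ∀ P v, xC P v ≠ 0 → g2 P v ≠ 0 ∧ g3 P v ≠ 0 := by
    intro P v h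
    by_cases d1 : g1 P = 0
    · have h' : g2 P v ≠ 0 := by
        intro h0; apply h; simp only [hxC, if_pos d1, h0]
      refine ⟨h', fun h0 => h' ?_⟩
      have hs := hsum P v
      rw [h0, d1] at hs
      simpa using hs
    · exact absurd (by simp only [hxC, if_neg d1]; rfl) h
  have hall : ∀ v, cnt blk G v ≤ s → ∀ P P' P'', v ∈ blk P → v ∈ blk P' → v ∈ blk P'' →
      g1 P v ≠ 0 → g2 P' v ≠ 0 → g3 P'' v ≠ 0 → False := by
    intro v hs P P' P'' hP hP' hP'' n1 n2 n3
    rcases hz v with h | h | h
    · exact hn1 v hs P hP n1 h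
    · exact hn2 v hs P' hP' n2 h
    · exact hn3 v hs P'' hP'' n3 h
  have cAB := alt (e := e) H hM fA fB
    (fun P => by
      by_cases d3 : g3 P = 0
      · right
        simp only [hxB]; split_ifs <;> simp [d3]
      · left
        simp only [hxA, if_neg d3])
    (fun v hs P P' hP hP' => by
      by_contra hcon
      rw [not_or] at hcon
      exact hall v hs P P P' hP hP hP' (vA P v hcon.1).1 (vA P v hcon.1).2 (vB P' v hcon.2).2)
  have cAC := alt (e := e) H hM fA fC
    (fun P => by
      by_cases d1 : g1 P = 0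
      · left
        simp only [hxA]; split_ifs <;> simp [d1]
      · right
        simp only [hxC, if_neg d1])
    (fun v hs P P' hP hP' => by
      by_contra hcon
      rw [not_or] at hcon
      exact hall v hs P P P' hP hP hP' (vA P v hcon.1).1 (vA P v hcon.1).2 (vC P' v hcon.2).2)
  have cBC := alt (e := e) H hM fB fC
    (fun P => by
      by_cases d2 : g2 P = 0
      · right
        simp only [hxC]; split_ifs <;> simp [d2]
      · left
        simp only [hxB, if_neg d2])
    (fun v hs P P' hP hP' => by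
      by_contra hcon
      rw [not_or] at hcon
      exact hall v hs P P' P hP hP' hP (vB P v hcon.1).1 (vC P' v hcon.2).1 (vB P v hcon.1).2)
  -- support of u_A
  have sA : word blk e xA ∈ supp K E A := by
    intro v hv
    by_contra hne
    have hB0 : word blk e xB v = 0 := (cAB v).resolve_left hne
    have hC0 : word blk e xC v = 0 := (cAC v).resolve_left hne
    have n1 : w1 v ≠ 0 := by
      rw [w1e, Pi.sub_apply, hB0, sub_zero]; exact hne
    have n2 : w2 v ≠ 0 := by
      rw [w2e, Pi.sub_apply, hC0, zero_sub]; exact neg_ne_zero.mpr hne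
    have m1 : v ∈ A ∪ B := by
      by_contra h
      exact n1 (hs1 v h)
    have m2 : v ∈ A ∪ C := by
      by_contra h
      exact n2 (hs2 v h)
    rw [Finset.mem_union] at m1 m2
    rcases m1 with h | h
    · exact hv h
    · rcases m2 with h' | h'
      · exact hv h'
      · exact Finset.disjoint_left.mp hBC h h'
  have hr : restr A w1 = word blk e xA := by
    funext v
    unfold restr
    split_ifs with hA
    · have h0 : word blk e g3 v = 0 := by
        have : (w1 + w2) v = 0 := by
          apply h3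
          rw [Finset.mem_union, not_or]
          exact ⟨Finset.disjoint_left.mp hAB hA, Finset.disjoint_left.mp hAC hA⟩
        rw [hw3]
        simp only [Pi.add_apply] at this
        simp only [Pi.sub_apply, Pi.neg_apply]
        rw [← neg_add', this, neg_zero]
      rw [w3e, Pi.sub_apply, sub_eq_zero] at h0
      have hB0 : word blk e xB v = 0 := by
        rcases cBC v with h | h
        · exact h
        · rw [h0, h]
      rw [w1e, Pi.sub_apply, hB0, sub_zero]
    · exact (sA v hA).symm
  rw [hr]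
  refine ⟨⟨xA, ⟨fA.1, fun P hP => ?_⟩, rfl⟩, sA⟩
  by_contra hne
  have hPG : P ∈ G := by
    by_contra h
    exact hne (fA.2 P h)
  exact hP (near_of_zero H hM (fA.1 P) hne hPG
    (fun v hv hvA hs => good_zero H fA.2 hs (sA v hvA) hv))

end words

end Pool.Agent.H90.FC
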